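import Pool.Agent.Q294.BRW.Ladder

/-!
# A branching random walk with countably infinitely many extinction probability vectors
-/

namespace Pool.Agent.Results.MP_2fa7ec_pr.CountableExtinctionVectors

open Q294.Branch

/-- There is an irreducible, non-singular branching random walk on a countably infinite set whose
set of extinction probability vectors is countably infinite. -/
theorem result : ∃ b : BRW (ℕ × ℕ), b.Irreducible ∧ b.NonSingular ∧ b.EG.Infinite ∧
    b.EG.Countable :=
  ⟨Ladder.ladder, Ladder.irreducible, Ladder.nonSingular, Ladder.EG_infinite, Ladder.EG_countable⟩

end Pool.Agent.Results.MP_2fa7ec_pr.CountableExtinctionVectors
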