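import Pool.Agent.Q294.BRW.Card

/-!
# The set of fixed points of an irreducible branching random walk is finite or uncountable
-/

namespace Pool.Agent.Results.MP_2fa7ec_pr.FixedPointsDichotomy

open Q294.Branch

/-- For every irreducible branching random walk the set of the fixed points of the generating
function either consists of the vector of the global extinction probabilities and the vector `1`
only, or has the cardinality of the continuum. -/
theorem result {X : Type*} [Countable X] (b : BRW X) (hb : b.Irreducible) :
    b.FG = {fun x => b.q x Set.univ, fun _ => 1} ∨ Cardinal.mk b.FG = Cardinal.continuum := by
  rw [← BRW.qbar_eq_q]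
  exact BRW.FG_dichotomy hb

end Pool.Agent.Results.MP_2fa7ec_pr.FixedPointsDichotomy
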